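import Pool.Agent.X175.Mix.Law

/-!
# MP_892d82_al: every finite 2'-simple group is mixable

`Pool.Agent.X175.Mix.TwoPrimeSimple G`: the only normal subgroup of `G` of odd index is `G`.

`Pool.Agent.X175.Mix.law g p x`: the probability that `g 0 ^ ε 0 * ⋯ * g (k-1) ^ ε (k-1) = x`,
where the `ε i` are independent Bernoulli variables with parameters `p i`.

`Pool.Agent.X175.Mix.Mixable G`: for some `k`, `g` and `p` (with values in `[0,1]`), that random
product is exactly uniformly distributed on `G`.

Proof of the new direction.  Let `S ⊆ ℝ[G]` be the monoid generated by the factors
`(1-p) e + p g`.  On a nontrivial simple left ideal `L`, the relation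
`y = c • X x` for some `X ∈ S`, `c > 0` is transitive and contains a neighbourhood of the
diagonal of `L ∖ {0}` (implicit function theorem at the point where all parameters vanish: because
`∑ g x = 0`, the kernel of the derivative contains a vector all of whose coordinates are positive).
As `L ∖ {0}` is connected when `dim L ≥ 2`, any nonzero vector can be moved to any other one.
Because `G` is 2'-simple, some `g ∈ G` has eigenvalue `-1` on `L`, so `(e+g)/2 ∈ S` kills some
nonzero vector of `L`.  Hence a product `M ∈ S` with `M L ≠ 0` can be improved to
`(e+g)/2 * X * M`, which has a strictly larger kernel; a product with maximal kernel kills the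
augmentation ideal, hence is the uniform element.
-/

namespace Pool.Agent.Results.MP_892d82_al.MixableIffTwoPrimeSimple

open Pool.Agent.X175.Mix

/-- A finite group is mixable if and only if it is 2'-simple.  The direction `←` is Q1 of
MP_892d82_al. -/
theorem result (G : Type*) [Group G] [Fintype G] : Mixable G ↔ TwoPrimeSimple G :=
  ⟨twoPrimeSimple_of_mixable, mixable_of_twoPrimeSimple⟩

end Pool.Agent.Results.MP_892d82_al.MixableIffTwoPrimeSimple
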